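import Mathlib
import Pool.Agent.helper35.Hz.Sdefs

/-! # MODULE D1, D3 of MP_1b0330_gt: abstract Matsumoto-Cadavid-Korkmaz and chain relations -/

namespace Pool.Agent.helper78.Hz
open Pool.Agent.helper35.Hz

section
variable {O : Type*} [Group O]

theorem altP_succ (y : ℕ → O) (j : ℕ) :
    altP y (j + 1) = altP y j * (if j % 2 = 0 then y j else (y j)⁻¹) := by
  simp [altP, List.range_succ]

theorem altP_zero (y : ℕ → O) : altP y 0 = 1 := by simp [altP]

theorem altQ_eq (y : ℕ → O) (j : ℕ) : altQ y j = altP (fun i => (y i)⁻¹) j := by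
  simp [altP, altQ]

theorem fix_between (f : MulAut O) (y : ℕ → O) {j n : ℕ} (hjn : j ≤ n)
    (h : ∀ i, j ≤ i → i < n → f (y i) = y i) :
    f ((altP y j)⁻¹ * altP y n) = (altP y j)⁻¹ * altP y n := by
  induction n, hjn using Nat.le_induction with
  | base => simp
  | succ n hn ih =>
    rw [altP_succ, ← mul_assoc, map_mul, ih (fun i h1 h2 => h i h1 (by omega))]
    congr 1
    split_ifs
    · exact h n hn (by omega)
    · rw [map_inv, h n hn (by omega)]

theorem fix_altP (f : MulAut O) (y : ℕ → O) {n : ℕ}
    (h : ∀ i, i < n → f (y i) = y i) : f (altP y n) = altP y n := by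
  have := fix_between f y (Nat.zero_le n) (fun i _ hi => h i hi)
  simpa [altP_zero] using this

theorem map_altP (f : MulAut O) (y : ℕ → O) (s w : O) {n : ℕ}
    (h : ∀ i, i < n → f (y i) = s⁻¹ * y i * w) :
    f (altP y n) = s⁻¹ * altP y n * (if n % 2 = 0 then s else w) := by
  induction n with
  | zero => simp [altP_zero]
  | succ n ih =>
    rw [altP_succ, map_mul, ih (fun i hi => h i (by omega))]
    rcases Nat.mod_two_eq_zero_or_one n with h0 | h0
    · have h1 : (n + 1) % 2 = 1 := by omega
      simp only [h0, h1, if_true, one_ne_zero, if_false]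
      rw [h n (by omega)]
      group
    · have h1 : (n + 1) % 2 = 0 := by omega
      simp only [h0, h1, if_true, one_ne_zero, if_false]
      rw [map_inv, h n (by omega)]
      group

theorem braid_inv {k : ℕ} {y : ℕ → O} {G : ℕ → MulAut O} (hG : IsBraidLike k y G) :
    IsBraidLike k (fun i => (y i)⁻¹) G where
  one j hj := by simp [hG.one j hj]
  two j hj := by simp [hG.two j hj, mul_assoc]
  fix j hj m hm h1 h2 := by simp [hG.fix j hj m hm h1 h2]

theorem G_altP {k : ℕ} {y : ℕ → O} {G : ℕ → MulAut O} (hG : IsBraidLike k y G) {j : ℕ} (hj : j < 2 * k)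
    {m : ℕ} (hm : m ≤ 2 * k + 1) (hmj : m ≠ j + 1) : G j (altP y m) = altP y m := by
  rcases lt_or_gt_of_ne hmj with h | h
  · exact fix_altP _ _ fun i hi => hG.fix j hj i (by omega) (by omega) (by omega)
  · have h1 : G j (altP y j) = altP y j :=
      fix_altP _ _ fun i hi => hG.fix j hj i (by omega) (by omega) (by omega)
    have h2 : G j (altP y (j + 2)) = altP y (j + 2) := by
      rw [show j + 2 = (j + 1) + 1 from rfl, altP_succ, altP_succ, map_mul, map_mul, h1]
      rcases Nat.mod_two_eq_zero_or_one j with h0 | h0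
      · have h1 : (j + 1) % 2 = 1 := by omega
        simp only [h0, h1, if_true, one_ne_zero, if_false, map_inv, hG.one j hj, hG.two j hj]
        group
      · have h1 : (j + 1) % 2 = 0 := by omega
        simp only [h0, h1, if_true, one_ne_zero, if_false, map_inv, hG.one j hj, hG.two j hj]
        group
    have h3 := fix_between (G j) y (show j + 2 ≤ m by omega)
      (fun i h1 h2 => hG.fix j hj i (by omega) (by omega) (by omega))
    rw [map_mul, map_inv, h2] at h3
    exact mul_left_cancel h3

theorem G_altQ {k : ℕ} {y : ℕ → O} {G : ℕ → MulAut O} (hG : IsBraidLike k y G) {j : ℕ} (hj : j < 2 * k)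
    {m : ℕ} (hm : m ≤ 2 * k + 1) (hmj : m ≠ j + 1) : G j (altQ y m) = altQ y m := by
  rw [altQ_eq]
  exact G_altP (braid_inv hG) hj hm hmj

theorem G_inv_one {k : ℕ} {y : ℕ → O} {G : ℕ → MulAut O} (hG : IsBraidLike k y G) {j : ℕ}
    (hj : j < 2 * k) : (G j)⁻¹ (y (j + 1)) = y j := by
  rw [← hG.one j hj]; simp

theorem G_inv_two {k : ℕ} {y : ℕ → O} {G : ℕ → MulAut O} (hG : IsBraidLike k y G) {j : ℕ}
    (hj : j < 2 * k) : (G j)⁻¹ (y j) = y j * (y (j + 1))⁻¹ * y j := by
  have h : G j (y j * (y (j + 1))⁻¹ * y j) = y j := by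
    rw [map_mul, map_mul, map_inv, hG.one j hj, hG.two j hj]; group
  calc (G j)⁻¹ (y j) = (G j)⁻¹ (G j (y j * (y (j + 1))⁻¹ * y j)) := by rw [h]
    _ = _ := by simp

theorem G_inv_fix {k : ℕ} {y : ℕ → O} {G : ℕ → MulAut O} (hG : IsBraidLike k y G) {j : ℕ}
    (hj : j < 2 * k) {m : ℕ} (hm : m ≤ 2 * k) (h1 : m ≠ j) (h2 : m ≠ j + 1) :
    (G j)⁻¹ (y m) = y m := by
  calc (G j)⁻¹ (y m) = (G j)⁻¹ (G j (y m)) := by rw [hG.fix j hj m hm h1 h2]
    _ = _ := by simp

/-- `H_j` fixes `y_m` (`m ≠ j`) and moves `y_j` by conjugates of `σ`, `ω`. -/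
theorem H_form (k : ℕ) (y : ℕ → O) (G H : ℕ → MulAut O)
    (hG : IsBraidLike k y G)
    (hH1 : ∀ m, m < 2 * k → H (2 * k) (y m) = y m)
    (hH2 : H (2 * k) (y (2 * k)) = y (2 * k) * (altP y (2 * k + 1))⁻¹ * (y (2 * k))⁻¹ *
      altQ y (2 * k + 1) * y (2 * k))
    (hH3 : ∀ j, j < 2 * k → H j = G j * H (j + 1) * (G j)⁻¹) :
    ∀ d j, j + d = 2 * k → (∀ m, m ≤ 2 * k → m ≠ j → H j (y m) = y m) ∧
      H j (y j) = if j % 2 = 0 then
        ((altP y j)⁻¹ * altP y (2 * k + 1) * altP y j)⁻¹ * y j *
          ((altQ y j)⁻¹ * altQ y (2 * k + 1) * altQ y j)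
        else ((altQ y j)⁻¹ * altQ y (2 * k + 1) * altQ y j)⁻¹ * y j *
          ((altP y j)⁻¹ * altP y (2 * k + 1) * altP y j) := by
  intro d
  induction d with
  | zero =>
    intro j hj
    have hj : j = 2 * k := by omega
    subst hj
    refine ⟨fun m hm h => hH1 m (by omega), ?_⟩
    have h0 : (2 * k) % 2 = 0 := by omega
    rw [hH2, if_pos h0, altQ_eq, altQ_eq, altP_succ, altP_succ, if_pos h0, if_pos h0]
    group
  | succ d ih =>
    intro j hj
    obtain ⟨ih1, ih2⟩ := ih (j + 1) (by omega)
    have hj2 : j < 2 * k := by omega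
    rw [hH3 j hj2]
    refine ⟨fun m hm h => ?_, ?_⟩
    · by_cases h2 : m = j + 1
      · subst h2
        change G j (H (j + 1) ((G j)⁻¹ (y (j + 1)))) = _
        rw [G_inv_one hG hj2, ih1 j (by omega) (by omega), hG.one j hj2]
      · change G j (H (j + 1) ((G j)⁻¹ (y m))) = _
        rw [G_inv_fix hG hj2 hm h h2, ih1 m hm h2, hG.fix j hj2 m hm h h2]
    · change G j (H (j + 1) ((G j)⁻¹ (y j))) = _
      rw [G_inv_two hG hj2, map_mul (H (j + 1)), map_mul (H (j + 1)), map_inv (H (j + 1)),
        ih1 j (by omega) (by omega), ih2]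
      have eP := G_altP hG hj2 (m := j) (by omega) (by omega)
      have eQ := G_altQ hG hj2 (m := j) (by omega) (by omega)
      have eσ := G_altP hG hj2 (m := 2 * k + 1) (by omega) (by omega)
      have eω := G_altQ hG hj2 (m := 2 * k + 1) (by omega) (by omega)
      have sQ : altQ y (j + 1) = altQ y j * (if j % 2 = 0 then (y j)⁻¹ else y j) := by
        rw [altQ_eq, altQ_eq, altP_succ]; simp
      generalize altP y (2 * k + 1) = σ at *
      generalize altQ y (2 * k + 1) = ω at *
      rw [altP_succ, sQ]
      generalize altP y j = P at *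
      generalize altQ y j = Q at *
      rcases Nat.mod_two_eq_zero_or_one j with h0 | h0
      · have h1 : (j + 1) % 2 = 1 := by omega
        simp only [h0, h1, if_true, one_ne_zero, if_false, map_inv, map_mul, hG.one j hj2,
          hG.two j hj2, eP, eQ, eσ, eω]
        group
      · have h1 : (j + 1) % 2 = 0 := by omega
        simp only [h0, h1, if_true, one_ne_zero, if_false, map_inv, map_mul, hG.one j hj2,
          hG.two j hj2, eP, eQ, eσ, eω]
        group

/-- MODULE D1 (Matsumoto-Cadavid-Korkmaz, abstract form). -/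
theorem mck_abstract (k : ℕ) (y : ℕ → O) (G H : ℕ → MulAut O)
    (hG : IsBraidLike k y G)
    (hH1 : ∀ m, m < 2 * k → H (2 * k) (y m) = y m)
    (hH2 : H (2 * k) (y (2 * k)) = y (2 * k) * (altP y (2 * k + 1))⁻¹ * (y (2 * k))⁻¹ *
      altQ y (2 * k + 1) * y (2 * k))
    (hH3 : ∀ j, j < 2 * k → H j = G j * H (j + 1) * (G j)⁻¹) (m : ℕ) (hm : m ≤ 2 * k) :
    ((List.range (2 * k + 1)).map H).prod (y m) =
      (altP y (2 * k + 1))⁻¹ * y m * altQ y (2 * k + 1) := by
  have key : ∀ j, j ≤ 2 * k + 1 → ∀ m, m ≤ 2 * k →
      ((List.range j).map H).prod (y m) =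
        if m < j then (altP y (2 * k + 1))⁻¹ * y m * altQ y (2 * k + 1) else y m := by
    intro j
    induction j with
    | zero => intro _ m _; simp
    | succ j ih =>
      intro hj m hm
      have ih := ih (by omega)
      obtain ⟨f1, f2⟩ := H_form k y G H hG hH1 hH2 hH3 (2 * k - j) j (by omega)
      rw [List.range_succ, List.map_append, List.prod_append]
      simp only [List.map_cons, List.map_nil, List.prod_cons, List.prod_nil, mul_one]
      rw [MulAut.mul_apply]
      set C := ((List.range j).map H).prod with hC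
      by_cases hmj : m = j
      · subst hmj
        rw [if_pos (Nat.lt_succ_self m), f2]
        have c1 : C ((altP y m)⁻¹ * altP y (2 * k + 1)) = (altP y m)⁻¹ * altP y (2 * k + 1) :=
          fix_between C y (by omega) fun i h1 h2 => by rw [ih i (by omega), if_neg (by omega)]
        have c2 : C ((altQ y m)⁻¹ * altQ y (2 * k + 1)) = (altQ y m)⁻¹ * altQ y (2 * k + 1) := by
          rw [altQ_eq, altQ_eq]
          exact fix_between C _ (by omega) fun i h1 h2 => by
            rw [map_inv, ih i (by omega), if_neg (by omega)]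
        have c3 := map_altP C y (altP y (2 * k + 1)) (altQ y (2 * k + 1)) (n := m) fun i hi => by
          rw [ih i (by omega), if_pos hi]
        have c4 : C (altQ y m) = (altQ y (2 * k + 1))⁻¹ * altQ y m *
            (if m % 2 = 0 then altQ y (2 * k + 1) else altP y (2 * k + 1)) := by
          rw [altQ_eq y m]
          exact map_altP C (fun i => (y i)⁻¹) (altQ y (2 * k + 1)) (altP y (2 * k + 1)) (n := m)
            fun i hi => by rw [map_inv, ih i (by omega), if_pos hi]; group
        have c5 : C (y m) = y m := by rw [ih m (by omega), if_neg (by omega)]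
        rw [map_mul C, map_inv] at c1 c2
        generalize altP y (2 * k + 1) = σ at *
        generalize altQ y (2 * k + 1) = ω at *
        generalize altP y m = P at *
        generalize altQ y m = Q at *
        have c1' : C σ = C P * (P⁻¹ * σ) := by rw [← c1]; group
        have c2' : C ω = C Q * (Q⁻¹ * ω) := by rw [← c2]; group
        rcases Nat.mod_two_eq_zero_or_one m with h0 | h0
        · simp only [h0, if_true, map_mul, map_inv, c1', c2', c5]
          simp only [h0, if_true] at c3 c4
          rw [c3, c4]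
          group
        · simp only [h0, one_ne_zero, if_false, map_mul, map_inv, c1', c2', c5]
          simp only [h0, one_ne_zero, if_false] at c3 c4
          rw [c3, c4]
          group
      · rw [f1 m hm hmj, ih m hm]
        by_cases h : m < j
        · rw [if_pos h, if_pos (by omega)]
        · rw [if_neg h, if_neg (by omega)]
  rw [key (2 * k + 1) le_rfl m hm, if_pos (by omega)]

/-- MODULE D3 (chain relation, abstract form). -/
theorem chain_abstract (k : ℕ) (hk : 1 ≤ k) (y : ℕ → O) (G : ℕ → MulAut O)
    (hG : IsBraidLike k y G) (m : ℕ) (hm : m ≤ 2 * k) :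
    (((List.range (2 * k)).map G).prod ^ (4 * k + 2)) (y m) =
      (altQ y (2 * k + 1))⁻¹ * (altP y (2 * k + 1))⁻¹ * y m * altQ y (2 * k + 1) * altP y (2 * k + 1) := by
  have key : ∀ j, j ≤ 2 * k → ∀ m, m < j → ((List.range j).map G).prod (y m) = y (m + 1) := by
    intro j
    induction j with
    | zero => intro _ m hm; omega
    | succ j ih =>
      intro hj m hm
      have ih := ih (by omega)
      rw [List.range_succ, List.map_append, List.prod_append]
      simp only [List.map_cons, List.map_nil, List.prod_cons, List.prod_nil, mul_one]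
      rw [MulAut.mul_apply]
      by_cases h : m = j
      · subst h
        rw [hG.one m (by omega)]
        have : ∀ i, i ≤ m → ((List.range i).map G).prod (y (m + 1)) = y (m + 1) := by
          intro i
          induction i with
          | zero => intro _; simp
          | succ i ih' =>
            intro hi
            rw [List.range_succ, List.map_append, List.prod_append]
            simp only [List.map_cons, List.map_nil, List.prod_cons, List.prod_nil, mul_one]
            rw [MulAut.mul_apply, hG.fix i (by omega) (m + 1) (by omega) (by omega) (by omega)]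
            exact ih' (by omega)
        exact this m le_rfl
      · rw [hG.fix j (by omega) m (by omega) h (by omega)]
        exact ih m (by omega)
  have fixP : ∀ j, j ≤ 2 * k → ((List.range j).map G).prod (altP y (2 * k + 1)) = altP y (2 * k + 1) := by
    intro j
    induction j with
    | zero => intro _; simp
    | succ j ih =>
      intro hj
      rw [List.range_succ, List.map_append, List.prod_append]
      simp only [List.map_cons, List.map_nil, List.prod_cons, List.prod_nil, mul_one]
      rw [MulAut.mul_apply, G_altP hG (by omega) (by omega) (by omega)]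
      exact ih (by omega)
  have fixQ : ∀ j, j ≤ 2 * k → ((List.range j).map G).prod (altQ y (2 * k + 1)) = altQ y (2 * k + 1) := by
    intro j
    induction j with
    | zero => intro _; simp
    | succ j ih =>
      intro hj
      rw [List.range_succ, List.map_append, List.prod_append]
      simp only [List.map_cons, List.map_nil, List.prod_cons, List.prod_nil, mul_one]
      rw [MulAut.mul_apply, G_altQ hG (by omega) (by omega) (by omega)]
      exact ih (by omega)
  have key := key (2 * k) le_rfl
  have fixP := fixP (2 * k) le_rfl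
  have fixQ := fixQ (2 * k) le_rfl
  set ρ := ((List.range (2 * k)).map G).prod with hρ
  -- ρ (altP y j) = y 0 * altQ y (j+1)
  have shift : ∀ j, j ≤ 2 * k → ρ (altP y j) = y 0 * altQ y (j + 1) := by
    intro j
    induction j with
    | zero => intro _; simp [altP, altQ]
    | succ j ih =>
      intro hj
      rw [altP_succ, map_mul, ih (by omega), altQ_eq, altQ_eq, altP_succ _ (j + 1), mul_assoc]
      congr 2
      rcases Nat.mod_two_eq_zero_or_one j with h0 | h0
      · have h1 : (j + 1) % 2 = 1 := by omega
        simp only [h0, h1, if_true, one_ne_zero, if_false, inv_inv]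
        exact key j (by omega)
      · have h1 : (j + 1) % 2 = 0 := by omega
        simp only [h0, h1, if_true, one_ne_zero, if_false, map_inv]
        rw [key j (by omega)]
  have last : ρ (y (2 * k)) = (altQ y (2 * k + 1))⁻¹ * (y 0)⁻¹ * altP y (2 * k + 1) := by
    have h0 : (2 * k) % 2 = 0 := by omega
    have h := fixP
    rw [altP_succ, if_pos h0, map_mul, shift (2 * k) le_rfl] at h
    rw [altP_succ y (2 * k), if_pos h0, ← h]
    group
  -- powers
  have pw1 : ∀ j, j ≤ 2 * k → (ρ ^ j) (y 0) = y j := by
    intro j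
    induction j with
    | zero => intro _; simp
    | succ j ih =>
      intro hj
      rw [pow_succ', MulAut.mul_apply, ih (by omega), key j (by omega)]
  have pwP : ∀ j, (ρ ^ j) (altP y (2 * k + 1)) = altP y (2 * k + 1) := by
    intro j
    induction j with
    | zero => simp
    | succ j ih => rw [pow_succ', MulAut.mul_apply, ih, fixP]
  have pwQ : ∀ j, (ρ ^ j) (altQ y (2 * k + 1)) = altQ y (2 * k + 1) := by
    intro j
    induction j with
    | zero => simp
    | succ j ih => rw [pow_succ', MulAut.mul_apply, ih, fixQ]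
  have pw2 : ∀ j, j ≤ 2 * k → (ρ ^ (2 * k + 1)) (y j) =
      (altQ y (2 * k + 1))⁻¹ * (y j)⁻¹ * altP y (2 * k + 1) := by
    intro j hj
    have e1 : (ρ ^ (2 * k + 1)) (y 0) = (altQ y (2 * k + 1))⁻¹ * (y 0)⁻¹ * altP y (2 * k + 1) := by
      rw [pow_succ', MulAut.mul_apply, pw1 (2 * k) le_rfl, last]
    rw [← pw1 j hj, ← MulAut.mul_apply, ← pow_add, Nat.add_comm, pow_add, MulAut.mul_apply, e1,
      map_mul, map_mul, map_inv, map_inv, pwQ, pwP]
  have e : 4 * k + 2 = (2 * k + 1) + (2 * k + 1) := by ring
  rw [e, pow_add, MulAut.mul_apply, pw2 m hm, map_mul, map_mul, map_inv, map_inv, pw2 m hm, pwQ, pwP]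
  group

end

end Pool.Agent.helper78.Hz
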