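import Mathlib
import Pool.Agent.helper78.Hz.Abstract

/-! # MODULE D2 of MP_1b0330_gt: the Matsumoto-Cadavid-Korkmaz relation in `Out(π_1 Σ_{2k})` -/

namespace Pool.Agent.helper78.Hz
open Pool.Agent.helper35.Hz

/-! ### The semidirect product with an involution -/

section semi
variable {N : Type*} [Group N]

theorem units_ne : ¬ (-1 : ℤˣ) = 1 := by decide

def phiZ (σ : MulAut N) (hσ : σ * σ = 1) : ℤˣ →* MulAut N where
  toFun ε := if ε = 1 then 1 else σ
  map_one' := by simp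
  map_mul' a b := by
    rcases Int.units_eq_one_or a with rfl | rfl <;> rcases Int.units_eq_one_or b with rfl | rfl <;>
      simp [hσ, units_ne]

theorem phiZ_neg (σ : MulAut N) (hσ : σ * σ = 1) : phiZ σ hσ (-1) = σ := by
  change (if (-1 : ℤˣ) = 1 then (1 : MulAut N) else σ) = σ
  exact if_neg units_ne

abbrev OO (σ : MulAut N) (hσ : σ * σ = 1) := N ⋊[phiZ σ hσ] ℤˣ

theorem sigma_sigma {σ : MulAut N} (hσ : σ * σ = 1) (x : N) : σ (σ x) = x := by
  rw [← MulAut.mul_apply, hσ]; rfl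

variable {σ : MulAut N} {hσ : σ * σ = 1}

/-- the cocycle -/
def cc (v : N) (ε : ℤˣ) : N := if ε = 1 then 1 else v

theorem cc_one (v : N) : cc v 1 = 1 := if_pos rfl
theorem cc_neg (v : N) : cc v (-1) = v := if_neg units_ne

/-- the automorphism `x ↦ η x`, `σ ↦ v σ` -/
def extAut (hσ : σ * σ = 1) (η : MulAut N) (v : N) (h1 : ∀ y, η (σ y) * v = v * σ (η y))
    (h2 : v * σ v = 1) : MulAut (OO σ hσ) where
  toFun x := ⟨η x.left * cc v x.right, x.right⟩
  invFun x := ⟨η⁻¹ (x.left * (cc v x.right)⁻¹), x.right⟩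
  left_inv x := by
    refine SemidirectProduct.ext ?_ rfl
    change η⁻¹ (η x.left * cc v x.right * (cc v x.right)⁻¹) = x.left
    rw [mul_inv_cancel_right, MulAut.inv_apply_self]
  right_inv x := by
    refine SemidirectProduct.ext ?_ rfl
    change η (η⁻¹ (x.left * (cc v x.right)⁻¹)) * cc v x.right = x.left
    rw [MulAut.apply_inv_self, inv_mul_cancel_right]
  map_mul' x y := by
    obtain ⟨x, a⟩ := x
    obtain ⟨y, b⟩ := y
    refine SemidirectProduct.ext ?_ rfl
    change η (x * phiZ σ hσ a y) * cc v (a * b) = η x * cc v a * phiZ σ hσ a (η y * cc v b)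
    rcases Int.units_eq_one_or a with rfl | rfl
    · rw [map_one, one_mul, cc_one, mul_one]
      simp [mul_assoc]
    · rw [phiZ_neg, cc_neg]
      have h3 := h1 y
      rcases Int.units_eq_one_or b with rfl | rfl
      · simp [mul_assoc, cc_neg, h3, cc_one]
      · rw [show (-1 : ℤˣ) * -1 = 1 from by decide, cc_one, cc_neg, mul_one, map_mul, map_mul]
        have h5 : σ v = v⁻¹ := (eq_inv_of_mul_eq_one_right h2)
        have h6 : η (σ y) = v * σ (η y) * v⁻¹ := by rw [← h3]; group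
        rw [h5, h6]
        simp [mul_assoc]

theorem extAut_inl (η : MulAut N) (v : N) (h1) (h2) (x : N) :
    extAut hσ η v h1 h2 (SemidirectProduct.inl x) = SemidirectProduct.inl (η x) := by
  refine SemidirectProduct.ext ?_ rfl
  change η x * cc v 1 = η x
  rw [cc_one, mul_one]

/-- the involution -/
def ss (σ : MulAut N) (hσ : σ * σ = 1) : OO σ hσ := SemidirectProduct.inr (-1)

theorem extAut_ss (η : MulAut N) (v : N) (h1) (h2) :
    extAut hσ η v h1 h2 (ss σ hσ) = SemidirectProduct.inl v * ss σ hσ := by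
  refine SemidirectProduct.ext ?_ rfl
  change η 1 * cc v (-1) = v * phiZ σ hσ 1 1
  rw [cc_neg, map_one, map_one, one_mul]; simp

theorem ss_mul_self : ss σ hσ * ss σ hσ = 1 := by
  rw [ss, ← map_mul]; rfl

theorem ss_inv : (ss σ hσ)⁻¹ = ss σ hσ := inv_eq_of_mul_eq_one_left ss_mul_self

theorem ss_conj (x : N) : ss σ hσ * SemidirectProduct.inl x * ss σ hσ = SemidirectProduct.inl (σ x) := by
  have : ss σ hσ * SemidirectProduct.inl x = SemidirectProduct.inl (σ x) * ss σ hσ := by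
    refine SemidirectProduct.ext ?_ rfl
    change (1 : N) * phiZ σ hσ (-1) x = σ x * phiZ σ hσ 1 1
    rw [phiZ_neg, map_one, one_mul]; simp
  rw [this, mul_assoc, ss_mul_self, mul_one]

end semi

/-! ### The involution of the closed surface group -/

/-- exchange of the two halves -/
def swA (k i : ℕ) : FG (2 * k) := if i < k then ga (2 * k) (k + i) else ga (2 * k) (i - k)
def swB (k i : ℕ) : FG (2 * k) := if i < k then gb (2 * k) (k + i) else gb (2 * k) (i - k)

theorem sw1 (k i : ℕ) (hi : i < 2 * k) : mkHom (2 * k) (swA k) (swB k) (swA k i) = ga (2 * k) i := by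
  unfold swA
  split_ifs with h
  · rw [mkHom_ga _ _ (by omega), if_neg (by omega)]; congr 1; omega
  · rw [mkHom_ga _ _ (by omega), if_pos (by omega)]; congr 1; omega

theorem sw2 (k i : ℕ) (hi : i < 2 * k) : mkHom (2 * k) (swA k) (swB k) (swB k i) = gb (2 * k) i := by
  unfold swB
  split_ifs with h
  · rw [mkHom_gb _ _ (by omega), if_neg (by omega)]; congr 1; omega
  · rw [mkHom_gb _ _ (by omega), if_pos (by omega)]; congr 1; omega

def sw (k : ℕ) : MulAut (FG (2 * k)) :=
  mkAut (2 * k) (swA k) (swB k) (swA k) (swB k) (sw1 k) (sw2 k) (sw1 k) (sw2 k)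

theorem sw_ga1 {k i : ℕ} (hi : i < k) : sw k (ga (2 * k) i) = ga (2 * k) (k + i) := by
  rw [sw, mkAut_ga (by omega), swA, if_pos hi]

theorem sw_gb1 {k i : ℕ} (hi : i < k) : sw k (gb (2 * k) i) = gb (2 * k) (k + i) := by
  rw [sw, mkAut_gb (by omega), swB, if_pos hi]

theorem sw_ga2 {k i : ℕ} (hi : i < k) : sw k (ga (2 * k) (k + i)) = ga (2 * k) i := by
  rw [sw, mkAut_ga (by omega), swA, if_neg (by omega)]; congr 1; omega

theorem sw_gb2 {k i : ℕ} (hi : i < k) : sw k (gb (2 * k) (k + i)) = gb (2 * k) i := by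
  rw [sw, mkAut_gb (by omega), swB, if_neg (by omega)]; congr 1; omega

theorem sw_sw (k : ℕ) : sw k * sw k = 1 := by
  have : (sw k)⁻¹ = sw k := rfl
  calc sw k * sw k = (sw k)⁻¹ * sw k := by rw [this]
    _ = 1 := by group

theorem sw_gz1 {k i : ℕ} (hi : i < k) : sw k (gz (2 * k) i) = gz (2 * k) (k + i) := by
  simp [gz, sw_ga1 hi, sw_gb1 hi]

theorem sw_gz2 {k i : ℕ} (hi : i < k) : sw k (gz (2 * k) (k + i)) = gz (2 * k) i := by
  simp [gz, sw_ga2 hi, sw_gb2 hi]

theorem sw_zr1 {k : ℕ} : ∀ i j, i ≤ j → j ≤ k → sw k (zr (2 * k) i j) = zr (2 * k) (k + i) (k + j) := by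
  intro i j hij
  induction j, hij using Nat.le_induction with
  | base => intro _; simp [zr_self]
  | succ j h ih =>
    intro hj
    rw [zr_succ _ h, map_mul, ih (by omega), sw_gz1 (by omega), ← add_assoc, zr_succ _ (by omega)]

theorem sw_zr2 {k : ℕ} : ∀ i j, i ≤ j → j ≤ k → sw k (zr (2 * k) (k + i) (k + j)) = zr (2 * k) i j := by
  intro i j hij hj
  rw [← sw_zr1 i j hij hj, ← MulAut.mul_apply, sw_sw]; rfl

theorem R_two (k : ℕ) : R (2 * k) = zr (2 * k) 0 k * zr (2 * k) k (2 * k) :=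
  zr_split _ (Nat.zero_le _) (by omega)

theorem sw_R (k : ℕ) : sw k (R (2 * k)) = (zr (2 * k) 0 k)⁻¹ * R (2 * k) * zr (2 * k) 0 k := by
  rw [R_two, map_mul, sw_zr1 0 k (Nat.zero_le _) le_rfl]
  have := sw_zr2 (k := k) 0 k (Nat.zero_le _) le_rfl
  rw [Nat.add_zero, show k + k = 2 * k from by ring] at this ⊢
  rw [this]
  group

theorem sw_map (k : ℕ) :
    (Subgroup.normalClosure ({R (2 * k)} : Set (FG (2 * k)))).map (sw k : FG (2 * k) →* FG (2 * k)) =
      Subgroup.normalClosure ({R (2 * k)} : Set (FG (2 * k))) := by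
  rw [Subgroup.map_normalClosure _ ((sw k : MulAut (FG (2 * k))) : FG (2 * k) →* FG (2 * k))
    (sw k).surjective, Set.image_singleton]
  change Subgroup.normalClosure {sw k (R (2 * k))} = _
  rw [sw_R]
  apply le_antisymm
  · refine Subgroup.normalClosure_le_normal ?_
    rw [Set.singleton_subset_iff]
    have h : R (2 * k) ∈ Subgroup.normalClosure ({R (2 * k)} : Set (FG (2 * k))) :=
      Subgroup.subset_normalClosure rfl
    have := Subgroup.normalClosure_normal.conj_mem _ h (zr (2 * k) 0 k)⁻¹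
    rwa [inv_inv] at this
  · refine Subgroup.normalClosure_le_normal ?_
    rw [Set.singleton_subset_iff]
    have h : (zr (2 * k) 0 k)⁻¹ * R (2 * k) * zr (2 * k) 0 k ∈
        Subgroup.normalClosure ({(zr (2 * k) 0 k)⁻¹ * R (2 * k) * zr (2 * k) 0 k} : Set (FG (2 * k))) :=
      Subgroup.subset_normalClosure rfl
    have := Subgroup.normalClosure_normal.conj_mem _ h (zr (2 * k) 0 k)
    have e : zr (2 * k) 0 k * ((zr (2 * k) 0 k)⁻¹ * R (2 * k) * zr (2 * k) 0 k) * (zr (2 * k) 0 k)⁻¹ =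
      R (2 * k) := by group
    rwa [e] at this

/-- the involution of `π_1 Σ_{2k}` -/
def swS (k : ℕ) : MulAut (Sg (2 * k)) := QuotientGroup.congr _ _ (sw k) (sw_map k)

/-- the projection -/
abbrev pr (k : ℕ) : FG (2 * k) →* Sg (2 * k) := PresentedGroup.mk {R (2 * k)}

theorem swS_pr (k : ℕ) (x : FG (2 * k)) : swS k (pr k x) = pr k (sw k x) := rfl

theorem swS_swS (k : ℕ) : swS k * swS k = 1 := by
  ext x
  induction x using QuotientGroup.induction_on with
  | H x =>
    change swS k (swS k (pr k x)) = pr k x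
    rw [swS_pr, swS_pr, ← MulAut.mul_apply, sw_sw]; rfl

theorem pr_R (k : ℕ) : pr k (R (2 * k)) = 1 :=
  (QuotientGroup.eq_one_iff _).2 (Subgroup.subset_normalClosure rfl)

/-- `q = π(z_0 ⋯ z_{k-1})` -/
def qq (k : ℕ) : Sg (2 * k) := pr k (zr (2 * k) 0 k)

theorem pr_zr2 (k : ℕ) : pr k (zr (2 * k) k (2 * k)) = (qq k)⁻¹ := by
  have h : pr k (zr (2 * k) 0 k * zr (2 * k) k (2 * k)) = 1 := by
    rw [← pr_R k]; exact congrArg _ (R_two k).symm
  rw [map_mul] at h
  exact eq_inv_of_mul_eq_one_right h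

theorem swS_qq (k : ℕ) : swS k (qq k) = (qq k)⁻¹ := by
  rw [← pr_zr2, qq, swS_pr, sw_zr1 0 k (Nat.zero_le _) le_rfl, Nat.add_zero]
  congr 2; omega

end Pool.Agent.helper78.Hz
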