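import Mathlib
import Pool.Agent.helper78.Hz.Mck

/-! # MODULE D2 of MP_1b0330_gt, part 2 -/

namespace Pool.Agent.helper78.Hz
open Pool.Agent.helper35.Hz

/-! ### values of the twists on generators -/

section tauN
variable {g i j l : ℕ} (h : i < j) (hj : j < g)
include h hj

theorem tauN_ga_out (hl : l < g) (h' : l < i ∨ j < l) : tauN g i j (ga g l) = ga g l := by
  have e1 : αN i j l true = false := by simp only [αN, decide_eq_false_iff_not]; omega
  have e2 : βN i j l true = false := by simp only [βN, decide_eq_false_iff_not]; omega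
  rw [tauN, dif_pos ⟨h, hj⟩, tw_ga hl, e1, e2]; simp

theorem tauN_gb_out (hl : l < g) (h' : l < i ∨ j ≤ l) : tauN g i j (gb g l) = gb g l := by
  have e1 : αN i j l false = false := by
    simp only [αN, decide_eq_false_iff_not]
    rintro (⟨h, _⟩ | h | ⟨_, h⟩)
    · omega
    · omega
    · simp at h
  have e2 : βN i j l false = false := by simp only [βN, decide_eq_false_iff_not]; omega
  rw [tauN, dif_pos ⟨h, hj⟩, tw_gb hl, e1, e2]; simp

theorem tauN_ga_left : tauN g i j (ga g i) = ga g i * (nu g i j)⁻¹ := by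
  have e1 : αN i j i true = false := by simp only [αN, decide_eq_false_iff_not]; simp; omega
  have e2 : βN i j i true = true := by simp only [βN, decide_eq_true_eq]; omega
  rw [tauN, dif_pos ⟨h, hj⟩, tw_ga (by omega), e1, e2]; simp

theorem tauN_gb_left : tauN g i j (gb g i) = nu g i j * gb g i * (nu g i j)⁻¹ := by
  have e1 : αN i j i false = true := by simp only [αN, decide_eq_true_eq]; simp
  have e2 : βN i j i false = true := by simp only [βN, decide_eq_true_eq]; omega
  rw [tauN, dif_pos ⟨h, hj⟩, tw_gb (by omega), e1, e2]; simp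

theorem tauN_ga_mid (h1 : i < l) (h2 : l < j) :
    tauN g i j (ga g l) = nu g i j * ga g l * (nu g i j)⁻¹ := by
  have e1 : αN i j l true = true := by simp only [αN, decide_eq_true_eq]; omega
  have e2 : βN i j l true = true := by simp only [βN, decide_eq_true_eq]; omega
  rw [tauN, dif_pos ⟨h, hj⟩, tw_ga (by omega), e1, e2]; simp

theorem tauN_gb_mid (h1 : i < l) (h2 : l < j) :
    tauN g i j (gb g l) = nu g i j * gb g l * (nu g i j)⁻¹ := by
  have e1 : αN i j l false = true := by simp only [αN, decide_eq_true_eq]; omega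
  have e2 : βN i j l false = true := by simp only [βN, decide_eq_true_eq]; omega
  rw [tauN, dif_pos ⟨h, hj⟩, tw_gb (by omega), e1, e2]; simp

theorem tauN_ga_right : tauN g i j (ga g j) = nu g i j * ga g j := by
  have e1 : αN i j j true = true := by simp only [αN, decide_eq_true_eq]; simp
  have e2 : βN i j j true = false := by simp only [βN, decide_eq_false_iff_not]; omega
  rw [tauN, dif_pos ⟨h, hj⟩, tw_ga (by omega), e1, e2]; simp

end tauN

theorem delta_ga1 {g k l : ℕ} (hk : k ≤ g) (hl : l < k) :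
    delta g k (ga g l) = zr g 0 k * ga g l * (zr g 0 k)⁻¹ := by
  rw [delta, dif_pos hk, tw_ga (by omega)]; simp [αD, hl]

theorem delta_gb1 {g k l : ℕ} (hk : k ≤ g) (hl : l < k) :
    delta g k (gb g l) = zr g 0 k * gb g l * (zr g 0 k)⁻¹ := by
  rw [delta, dif_pos hk, tw_gb (by omega)]; simp [αD, hl]

theorem delta_ga2 {g k l : ℕ} (hk : k ≤ g) (hl : k ≤ l) (hg : l < g) :
    delta g k (ga g l) = ga g l := by
  rw [delta, dif_pos hk, tw_ga hg]; simp [αD, not_lt.2 hl]

theorem delta_gb2 {g k l : ℕ} (hk : k ≤ g) (hl : k ≤ l) (hg : l < g) :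
    delta g k (gb g l) = gb g l := by
  rw [delta, dif_pos hk, tw_gb hg]; simp [αD, not_lt.2 hl]

theorem tauA_ga {g i l : ℕ} (hl : l < g) : tauA g i (ga g l) = ga g l := by
  rw [tauA, tw_ga hl]; simp [bA]

theorem tauA_gb {g i l : ℕ} (hl : l < g) :
    tauA g i (gb g l) = if l = i then gb g l * (ga g i)⁻¹ else gb g l := by
  rw [tauA, tw_gb hl]; by_cases h : l = i <;> simp [bA, h]

theorem tauB_ga {g i l : ℕ} (hl : l < g) :
    tauB g i (ga g l) = if l = i then ga g l * gb g i else ga g l := by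
  rw [tauB, tw_ga hl]; by_cases h : l = i <;> simp [bB, h]

theorem tauB_gb {g i l : ℕ} (hl : l < g) : tauB g i (gb g l) = gb g l := by
  rw [tauB, tw_gb hl]; simp [bB]

/-! ### commutation with the exchange of halves -/

theorem half_cases {k l : ℕ} (hl : l < 2 * k) : l < k ∨ ∃ l', l' < k ∧ l = k + l' := by
  by_cases h : l < k
  · exact Or.inl h
  · exact Or.inr ⟨l - k, by omega, by omega⟩

theorem sw_tauA {k i : ℕ} (_hi : i < k) : sw k * tauA (2 * k) i = tauA (2 * k) (k + i) * sw k := by
  refine fg_aut_ext (fun l hl => ?_) (fun l hl => ?_)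
  · rw [MulAut.mul_apply, MulAut.mul_apply, tauA_ga hl]
    rcases half_cases hl with h | ⟨l', h, rfl⟩
    · rw [sw_ga1 h, tauA_ga (by omega)]
    · rw [sw_ga2 h, tauA_ga (by omega)]
  · rw [MulAut.mul_apply, MulAut.mul_apply, tauA_gb hl]
    rcases half_cases hl with h | ⟨l', h, rfl⟩
    · rw [sw_gb1 h, tauA_gb (by omega)]
      by_cases e : l = i
      · subst e; simp [sw_ga1 h, sw_gb1 h]
      · rw [if_neg e, if_neg (by omega), sw_gb1 h]
    · rw [sw_gb2 h, tauA_gb (by omega), if_neg (by omega), if_neg (by omega), sw_gb2 h]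

theorem sw_tauB {k i : ℕ} (_hi : i < k) : sw k * tauB (2 * k) i = tauB (2 * k) (k + i) * sw k := by
  refine fg_aut_ext (fun l hl => ?_) (fun l hl => ?_)
  · rw [MulAut.mul_apply, MulAut.mul_apply, tauB_ga hl]
    rcases half_cases hl with h | ⟨l', h, rfl⟩
    · rw [sw_ga1 h, tauB_ga (by omega)]
      by_cases e : l = i
      · subst e; simp [sw_ga1 h, sw_gb1 h]
      · rw [if_neg e, if_neg (by omega), sw_ga1 h]
    · rw [sw_ga2 h, tauB_ga (by omega), if_neg (by omega), if_neg (by omega), sw_ga2 h]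
  · rw [MulAut.mul_apply, MulAut.mul_apply, tauB_gb hl]
    rcases half_cases hl with h | ⟨l', h, rfl⟩
    · rw [sw_gb1 h, tauB_gb (by omega)]
    · rw [sw_gb2 h, tauB_gb (by omega)]

theorem sw_nu {k i : ℕ} (hi : i + 1 < k) : sw k (nu (2 * k) i (i + 1)) = nu (2 * k) (k + i) (k + i + 1) := by
  simp [nu, zr_self, sw_ga1 hi, sw_gb1 hi, sw_gb1 (show i < k by omega), add_assoc]

theorem sw_tauN {k i : ℕ} (hi : i + 1 < k) :
    sw k * tauN (2 * k) i (i + 1) = tauN (2 * k) (k + i) (k + i + 1) * sw k := by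
  have e0 : i < i + 1 := by omega
  have e1 : i + 1 < 2 * k := by omega
  have e2 : k + i < k + i + 1 := by omega
  have e3 : k + i + 1 < 2 * k := by omega
  refine fg_aut_ext (fun l hl => ?_) (fun l hl => ?_)
  · rw [MulAut.mul_apply, MulAut.mul_apply]
    rcases half_cases hl with h | ⟨l', h, rfl⟩
    · rw [sw_ga1 h]
      rcases lt_trichotomy l i with h' | h' | h'
      · rw [tauN_ga_out e0 e1 hl (Or.inl h'), tauN_ga_out e2 e3 (by omega) (Or.inl (by omega)), sw_ga1 h]
      · subst h'
        rw [tauN_ga_left e0 e1, tauN_ga_left e2 e3, map_mul, map_inv, sw_nu hi, sw_ga1 h]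
      · rcases lt_or_eq_of_le (Nat.succ_le_of_lt h') with h' | h'
        · rw [tauN_ga_out e0 e1 hl (Or.inr (by omega)), tauN_ga_out e2 e3 (by omega) (Or.inr (by omega)),
            sw_ga1 h]
        · have h' : l = i + 1 := by omega
          subst h'
          rw [tauN_ga_right e0 e1, map_mul, sw_nu hi, sw_ga1 h]
          exact (tauN_ga_right e2 e3).symm
    · rw [sw_ga2 h, tauN_ga_out e0 e1 hl (Or.inr (by omega)), tauN_ga_out e2 e3 (by omega)
        (Or.inl (by omega)), sw_ga2 h]
  · rw [MulAut.mul_apply, MulAut.mul_apply]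
    rcases half_cases hl with h | ⟨l', h, rfl⟩
    · rw [sw_gb1 h]
      rcases lt_trichotomy l i with h' | h' | h'
      · rw [tauN_gb_out e0 e1 hl (Or.inl h'), tauN_gb_out e2 e3 (by omega) (Or.inl (by omega)), sw_gb1 h]
      · subst h'
        rw [tauN_gb_left e0 e1, tauN_gb_left e2 e3, map_mul, map_mul, map_inv, sw_nu hi, sw_gb1 h]
      · rw [tauN_gb_out e0 e1 hl (Or.inr (by omega)), tauN_gb_out e2 e3 (by omega) (Or.inr (by omega)),
          sw_gb1 h]
    · rw [sw_gb2 h, tauN_gb_out e0 e1 hl (Or.inr (by omega)), tauN_gb_out e2 e3 (by omega)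
        (Or.inl (by omega)), sw_gb2 h]

theorem sw_uu {k j : ℕ} (hj : j < 2 * k) : sw k * uu (2 * k) 0 j = uu (2 * k) k j * sw k := by
  unfold uu
  split_ifs with h1 h2
  · have := sw_tauB (k := k) (i := 0) (by omega)
    simpa using this
  · have hB := sw_tauB (k := k) (i := j / 2) (by omega)
    have hA := sw_tauA (k := k) (i := j / 2) (by omega)
    have hB' : sw k * (tauB (2 * k) (j / 2))⁻¹ = (tauB (2 * k) (k + j / 2))⁻¹ * sw k := by
      rw [eq_inv_mul_iff_mul_eq, ← mul_assoc, ← hB]; group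
    rw [Nat.zero_add, ← mul_assoc, ← mul_assoc, hB, mul_assoc (tauB _ _), hA, ← mul_assoc,
      mul_assoc (_ * _) (sw k), hB', ← mul_assoc]
  · have hN := sw_tauN (k := k) (i := j / 2 - 1) (by omega)
    have a1 : 0 + j / 2 - 1 = j / 2 - 1 := by omega
    have a2 : 0 + j / 2 = j / 2 - 1 + 1 := by omega
    have a3 : k + j / 2 - 1 = k + (j / 2 - 1) := by omega
    have a4 : k + j / 2 = k + (j / 2 - 1) + 1 := by omega
    rw [a3, a4, a1, a2]
    exact hN

end Pool.Agent.helper78.Hz
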