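import Mathlib
import Pool.Agent.helper78.Hz.Mck2
import Pool.Agent.helper35.Hz.Supp

/-! # MODULE D2 of MP_1b0330_gt, part 3: assembly -/

namespace Pool.Agent.helper78.Hz
open Pool.Agent.helper35.Hz
open SemidirectProduct (inl)

/-! ### the coordinates -/

/-- homomorphisms fixing the first `k` handles fix `s_m` -/
theorem Xw_fix {g k : ℕ} {M : Type*} [Group M] {f f' : FG g →* M} {i : ℕ}
    (ha : ∀ l, i ≤ l → l < k → f (ga g l) = f' (ga g l)) (hb : ∀ l, i ≤ l → l < k → f (gb g l) = f' (gb g l)) :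
    f (Xw g 0 k i) = f' (Xw g 0 k i) := by
  unfold Xw
  rw [map_list_prod, map_list_prod, List.map_map, List.map_map]
  congr 1
  refine List.map_congr_left fun l hl => ?_
  rw [List.mem_range'_1] at hl
  simp only [Function.comp_apply, Nat.zero_add, map_mul]
  rw [ha l hl.1 (by omega), hb l hl.1 (by omega)]

theorem sc_fix {g k : ℕ} {M : Type*} [Group M] {f f' : FG g →* M}
    (ha : ∀ l, l < k → f (ga g l) = f' (ga g l)) (hb : ∀ l, l < k → f (gb g l) = f' (gb g l)) {m : ℕ}
    (hm : m ≤ 2 * k) : f (sc g 0 k m) = f' (sc g 0 k m) := by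
  have hX : ∀ i, f (Xw g 0 k i) = f' (Xw g 0 k i) := fun i =>
    Xw_fix (fun l _ h => ha l h) (fun l _ h => hb l h)
  unfold sc
  split_ifs with h1 h2
  · rw [map_inv, map_inv, hX]
  · rw [map_inv, map_inv, map_mul, map_mul, hX, ha _ (by omega)]
  · rw [map_mul, map_mul, map_inv, map_inv, hX, hb _ (by omega)]

theorem Xw_top (g k : ℕ) : Xw g 0 k k = 1 := by simp [Xw]

theorem Xw_step {g k i : ℕ} (h : i < k) : Xw g 0 k i = ga g i * gb g i * Xw g 0 k (i + 1) := by
  unfold Xw
  have : k - i = (k - (i + 1)) + 1 := by omega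
  rw [this, List.range'_succ]
  simp

/-- `τ_ν (X_i) = X_i ν⁻¹` for `i < k` -/
theorem tauN_Xw {g k j : ℕ} (hk : 1 ≤ k) (hkj : k - 1 < j) (hj : j < g) : ∀ d i, i + d + 1 = k →
    tauN g (k - 1) j (Xw g 0 k i) = Xw g 0 k i * (nu g (k - 1) j)⁻¹ := by
  intro d
  induction d with
  | zero =>
    intro i hi
    have hi : i = k - 1 := by omega
    subst hi
    rw [Xw_step (by omega), show k - 1 + 1 = k from by omega, Xw_top, mul_one, map_mul,
      tauN_ga_left hkj hj, tauN_gb_left hkj hj]
    group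
  | succ d ih =>
    intro i hi
    rw [Xw_step (by omega), map_mul, map_mul, ih (i + 1) (by omega),
      tauN_ga_out hkj hj (by omega) (Or.inl (by omega)), tauN_gb_out hkj hj (by omega) (Or.inl (by omega))]
    simp [mul_assoc]

theorem tauN_sc {g k j : ℕ} (hk : 1 ≤ k) (hkj : k - 1 < j) (hj : j < g) {m : ℕ} (hm : m < 2 * k) :
    tauN g (k - 1) j (sc g 0 k m) = nu g (k - 1) j * sc g 0 k m := by
  unfold sc
  split_ifs with h1 h2
  · rw [map_inv, tauN_Xw hk hkj hj (k - 1) 0 (by omega)]; group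
  · rw [Nat.zero_add, map_inv, map_mul]
    by_cases h3 : m / 2 = k - 1
    · rw [h3, show k - 1 + 1 = k from by omega, Xw_top, map_one, tauN_ga_left hkj hj]; group
    · rw [tauN_Xw hk hkj hj (k - 1 - (m / 2 + 1)) (m / 2 + 1) (by omega),
        tauN_ga_out hkj hj (by omega) (Or.inl (by omega))]
      group
  · rw [Nat.zero_add, map_mul, map_inv, tauN_Xw hk hkj hj (k - 1 - (m / 2)) (m / 2) (by omega),
      tauN_gb_out hkj hj (by omega) (Or.inl (by omega))]
    group

theorem sc_top {g k : ℕ} (hk : 1 ≤ k) : sc g 0 k (2 * k) = gb g (k - 1) := by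
  unfold sc
  rw [if_neg (by omega), if_neg (by omega), show 2 * k / 2 = k from by omega, Xw_top, Nat.zero_add]
  simp

/-! ### homomorphisms out of the closed surface group -/

theorem Sg_hom_ext {k : ℕ} {M : Type*} [Group M] {f f' : Sg (2 * k) →* M}
    (ha : ∀ i < 2 * k, f (pr k (ga _ i)) = f' (pr k (ga _ i)))
    (hb : ∀ i < 2 * k, f (pr k (gb _ i)) = f' (pr k (gb _ i))) : f = f' := by
  have : f.comp (pr k) = f'.comp (pr k) := fg_hom_ext ha hb
  ext x
  exact DFunLike.congr_fun this (FreeGroup.of x)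

/-- `π(ν)` -/
def nn (k : ℕ) : Sg (2 * k) := pr k (nu (2 * k) (k - 1) (2 * k - 1))

theorem nn_eq {k : ℕ} (hk : 1 ≤ k) :
    nn k = (pr k (gb (2 * k) (k - 1)))⁻¹ * (qq k)⁻¹ * pr k (gb (2 * k) (2 * k - 1)) := by
  have h : nu (2 * k) (k - 1) (2 * k - 1) =
      (gb (2 * k) (k - 1))⁻¹ * zr (2 * k) k (2 * k) * gb (2 * k) (2 * k - 1) := by
    have h2 : zr (2 * k) k (2 * k) = zr (2 * k) k (2 * k - 1) * gz (2 * k) (2 * k - 1) := by
      have := zr_succ (2 * k) (i := k) (j := 2 * k - 1) (by omega)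
      rwa [show 2 * k - 1 + 1 = 2 * k from by omega] at this
    rw [h2, nu, show k - 1 + 1 = k from by omega, gz]
    group
  rw [nn, h, map_mul, map_mul, map_inv, pr_zr2]

theorem swS_nn {k : ℕ} (hk : 1 ≤ k) : swS k (nn k) = (nn k)⁻¹ := by
  have h1 : sw k (gb (2 * k) (k - 1)) = gb (2 * k) (2 * k - 1) := by
    rw [sw_gb1 (by omega)]; congr 1; omega
  have h2 : sw k (gb (2 * k) (2 * k - 1)) = gb (2 * k) (k - 1) := by
    have := sw_gb2 (k := k) (i := k - 1) (by omega)
    rwa [show k + (k - 1) = 2 * k - 1 from by omega] at this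
  rw [nn_eq hk, map_mul, map_mul, map_inv, map_inv, swS_qq, swS_pr, swS_pr, h1, h2]
  group

/-- the twist `τ_ν` on `π_1` -/
def tN (k : ℕ) : MulAut (Sg (2 * k)) := toAutS (2 * k) ⟨tauN (2 * k) (k - 1) (2 * k - 1), tauN_R _ _ _⟩

theorem tN_pr (k : ℕ) (x : FG (2 * k)) : tN k (pr k x) = pr k (tauN (2 * k) (k - 1) (2 * k - 1) x) := rfl

theorem tN_sw {k : ℕ} (hk : 1 ≤ k) (y : Sg (2 * k)) :
    tN k (swS k y) = nn k * swS k (tN k y) * (nn k)⁻¹ := by
  have e0 : k - 1 < 2 * k - 1 := by omega
  have e1 : 2 * k - 1 < 2 * k := by omega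
  have key : ((tN k * swS k : MulAut (Sg (2 * k))) : Sg (2 * k) →* Sg (2 * k)) =
      ((MulAut.conj (nn k) * (swS k * tN k) : MulAut (Sg (2 * k))) : Sg (2 * k) →* Sg (2 * k)) := by
    refine Sg_hom_ext (fun l hl => ?_) (fun l hl => ?_)
    · change tN k (swS k (pr k (ga _ l))) = nn k * swS k (tN k (pr k (ga _ l))) * (nn k)⁻¹
      rw [swS_pr, tN_pr, tN_pr, swS_pr]
      rcases half_cases hl with h | ⟨l', h, rfl⟩
      · rw [sw_ga1 h]
        by_cases h' : l = k - 1
        · have e : k + l = 2 * k - 1 := by omega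
          rw [e, h', tauN_ga_left e0 e1, tauN_ga_right e0 e1, map_mul, map_mul (sw k), map_mul, map_inv (sw k),
            map_inv, ← swS_pr, ← swS_pr, ← nn, swS_nn hk, swS_pr, sw_ga1 (by omega)]
          rw [show k + (k - 1) = 2 * k - 1 from by omega]
          group
        · rw [tauN_ga_mid e0 e1 (by omega) (by omega), tauN_ga_out e0 e1 hl (Or.inl (by omega)), sw_ga1 h]
          simp only [map_mul, map_inv]; rfl
      · rw [sw_ga2 h]
        by_cases h' : l' = k - 1
        · have e : k + l' = 2 * k - 1 := by omega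
          rw [e, h', tauN_ga_left e0 e1, tauN_ga_right e0 e1, map_mul, map_mul (sw k), map_mul,
            map_inv, ← swS_pr, ← swS_pr, ← nn, swS_nn hk, swS_pr]
          have := sw_ga2 (k := k) (i := k - 1) (by omega)
          rw [show k + (k - 1) = 2 * k - 1 from by omega] at this
          rw [this]
          group
        · rw [tauN_ga_mid (l := k + l') e0 e1 (by omega) (by omega),
            tauN_ga_out (l := l') e0 e1 (by omega) (Or.inl (by omega)),
            map_mul (sw k), map_mul (sw k), map_inv (sw k), map_mul, map_mul, map_inv, ← swS_pr, ← nn,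
            swS_nn hk, sw_ga2 h]
          group
    · change tN k (swS k (pr k (gb _ l))) = nn k * swS k (tN k (pr k (gb _ l))) * (nn k)⁻¹
      rw [swS_pr, tN_pr, tN_pr, swS_pr]
      rcases half_cases hl with h | ⟨l', h, rfl⟩
      · rw [sw_gb1 h]
        by_cases h' : l = k - 1
        · have e : k + l = 2 * k - 1 := by omega
          rw [e, h', tauN_gb_left e0 e1, tauN_gb_out e0 e1 (by omega) (Or.inr (by omega)), map_mul (sw k),
            map_mul (sw k), map_mul, map_mul, map_inv (sw k), map_inv, ← swS_pr, ← swS_pr, ← nn, swS_nn hk,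
            swS_pr, sw_gb1 (by omega)]
          rw [show k + (k - 1) = 2 * k - 1 from by omega]
          group
        · rw [tauN_gb_mid e0 e1 (by omega) (by omega), tauN_gb_out e0 e1 hl (Or.inl (by omega)), sw_gb1 h]
          simp only [map_mul, map_inv]; rfl
      · rw [sw_gb2 h]
        by_cases h' : l' = k - 1
        · have e : k + l' = 2 * k - 1 := by omega
          have := sw_gb2 (k := k) (i := k - 1) (by omega)
          rw [show k + (k - 1) = 2 * k - 1 from by omega] at this
          rw [e, h', tauN_gb_left e0 e1, tauN_gb_out e0 e1 (by omega) (Or.inr (by omega)), this, map_mul,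
            map_mul, map_inv, ← nn]
        · rw [tauN_gb_mid (l := k + l') e0 e1 (by omega) (by omega),
            tauN_gb_out (l := l') e0 e1 (by omega) (Or.inl (by omega)),
            map_mul (sw k), map_mul (sw k), map_inv (sw k), map_mul, map_mul, map_inv, ← swS_pr, ← nn,
            swS_nn hk, sw_gb2 h]
          group
  exact DFunLike.congr_fun key y

/-- the separating twist on `π_1` -/
def tD (k : ℕ) : MulAut (Sg (2 * k)) := toAutS (2 * k) ⟨delta (2 * k) k, delta_R (2 * k) k⟩

theorem tD_pr (k : ℕ) (x : FG (2 * k)) : tD k (pr k x) = pr k (delta (2 * k) k x) := rfl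

theorem tD_sw (k : ℕ) (y : Sg (2 * k)) :
    tD k (swS k y) = qq k * swS k (tD k y) * (qq k)⁻¹ := by
  have e : k ≤ 2 * k := by omega
  have key : ((tD k * swS k : MulAut (Sg (2 * k))) : Sg (2 * k) →* Sg (2 * k)) =
      ((MulAut.conj (qq k) * (swS k * tD k) : MulAut (Sg (2 * k))) : Sg (2 * k) →* Sg (2 * k)) := by
    refine Sg_hom_ext (fun l hl => ?_) (fun l hl => ?_)
    · change tD k (swS k (pr k (ga _ l))) = qq k * swS k (tD k (pr k (ga _ l))) * (qq k)⁻¹
      rw [swS_pr, tD_pr, tD_pr, swS_pr]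
      rcases half_cases hl with h | ⟨l', h, rfl⟩
      · rw [sw_ga1 h, delta_ga1 e h, delta_ga2 e (by omega) (by omega), map_mul (sw k), map_mul (sw k),
          map_inv (sw k), map_mul, map_mul, map_inv, ← swS_pr, ← qq, swS_qq, sw_ga1 h]
        group
      · rw [sw_ga2 h, delta_ga1 e h, delta_ga2 e (by omega) (by omega), map_mul, map_mul, map_inv,
          ← qq, sw_ga2 h]
    · change tD k (swS k (pr k (gb _ l))) = qq k * swS k (tD k (pr k (gb _ l))) * (qq k)⁻¹
      rw [swS_pr, tD_pr, tD_pr, swS_pr]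
      rcases half_cases hl with h | ⟨l', h, rfl⟩
      · rw [sw_gb1 h, delta_gb1 e h, delta_gb2 e (by omega) (by omega), map_mul (sw k), map_mul (sw k),
          map_inv (sw k), map_mul, map_mul, map_inv, ← swS_pr, ← qq, swS_qq, sw_gb1 h]
        group
      · rw [sw_gb2 h, delta_gb1 e h, delta_gb2 e (by omega) (by omega), map_mul, map_mul, map_inv,
          ← qq, sw_gb2 h]
  exact DFunLike.congr_fun key y

end Pool.Agent.helper78.Hz
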