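import Mathlib
import Pool.Agent.helper78.Hz.Mck3

/-! # MODULE D2 of MP_1b0330_gt, part 4: the relation -/

namespace Pool.Agent.helper78.Hz
open Pool.Agent.helper35.Hz
open SemidirectProduct (inl)

section
variable {k : ℕ}

/-- `O = π_1 ⋊ ⟨σ⟩` -/
abbrev OS (k : ℕ) := OO (swS k) (swS_swS k)

abbrev s0 (k : ℕ) : OS k := ss (swS k) (swS_swS k)

/-- `y_m = s_m σ` -/
def yy (k m : ℕ) : OS k := inl (pr k (sc (2 * k) 0 k m)) * s0 k

theorem yy_altP (n : ℕ) : altP (yy k) n =
    inl (pr k (altP (sc (2 * k) 0 k) n)) * (if n % 2 = 0 then 1 else s0 k) := by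
  induction n with
  | zero => simp [altP]
  | succ n ih =>
    rw [altP_succ, altP_succ, ih]
    rcases Nat.mod_two_eq_zero_or_one n with h0 | h0
    · have h1 : (n + 1) % 2 = 1 := by omega
      simp only [h0, h1, if_true, one_ne_zero, if_false, map_mul, yy, mul_one]
      group
    · have h1 : (n + 1) % 2 = 0 := by omega
      simp only [h0, h1, if_true, one_ne_zero, if_false, map_mul, yy, mul_one, map_inv]
      group

theorem yy_altQ (n : ℕ) : altQ (yy k) n =
    (s0 k)⁻¹ * inl (pr k (altQ (sc (2 * k) 0 k) n)) * (if n % 2 = 0 then s0 k else 1) := by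
  induction n with
  | zero => simp [altQ]
  | succ n ih =>
    have e1 : altQ (yy k) (n + 1) = altQ (yy k) n * (if n % 2 = 0 then (yy k n)⁻¹ else yy k n) := by
      rw [altQ_eq, altQ_eq, altP_succ]; simp
    have e2 : altQ (sc (2 * k) 0 k) (n + 1) = altQ (sc (2 * k) 0 k) n *
        (if n % 2 = 0 then (sc (2 * k) 0 k n)⁻¹ else sc (2 * k) 0 k n) := by
      rw [altQ_eq, altQ_eq, altP_succ]; simp
    rw [e1, e2, ih]
    rcases Nat.mod_two_eq_zero_or_one n with h0 | h0
    · have h1 : (n + 1) % 2 = 1 := by omega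
      simp only [h0, h1, if_true, one_ne_zero, if_false, map_mul, yy, mul_one, map_inv]
      group
    · have h1 : (n + 1) % 2 = 0 := by omega
      simp only [h0, h1, if_true, one_ne_zero, if_false, map_mul, yy, mul_one]
      group

/-- pairs (automorphism of `O` preserving `π_1`, class of the restriction) -/
def Rel (k : ℕ) (h : MulAut (OS k)) (o : OutS (2 * k)) : Prop :=
  ∃ η : MulAut (Sg (2 * k)), (∀ x, h (inl x) = inl (η x)) ∧ QuotientGroup.mk η = o

theorem Rel.mul {h h' : MulAut (OS k)} {o o' : OutS (2 * k)} (H : Rel k h o) (H' : Rel k h' o') :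
    Rel k (h * h') (o * o') := by
  obtain ⟨η, h1, h2⟩ := H
  obtain ⟨η', h1', h2'⟩ := H'
  refine ⟨η * η', fun x => ?_, ?_⟩
  · rw [MulAut.mul_apply, h1', h1]; rfl
  · rw [QuotientGroup.mk_mul, h2, h2']

theorem Rel.inv {h : MulAut (OS k)} {o : OutS (2 * k)} (H : Rel k h o) : Rel k h⁻¹ o⁻¹ := by
  obtain ⟨η, h1, h2⟩ := H
  refine ⟨η⁻¹, fun x => ?_, ?_⟩
  · have : h (inl (η⁻¹ x)) = inl x := by rw [h1, MulAut.apply_inv_self]
    rw [← this, MulAut.inv_apply_self]
  · rw [QuotientGroup.mk_inv, h2]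

theorem Rel.one : Rel k 1 1 := ⟨1, fun _ => rfl, rfl⟩

/-- `G_j` -/
def GG (k j : ℕ) (hj : j < 2 * k) : MulAut (OS k) :=
  extAut (swS_swS k) (toAutS (2 * k) ⟨UU k j, UU_mem k j⟩)⁻¹ 1
    (by
      have key : ∀ y, toAutS (2 * k) ⟨UU k j, UU_mem k j⟩ (swS k y) =
          swS k (toAutS (2 * k) ⟨UU k j, UU_mem k j⟩ y) := by
        intro y
        induction y using QuotientGroup.induction_on with
        | H y =>
          change pr k (UU k j (sw k y)) = pr k (sw k (UU k j y))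
          congr 1
          rw [← MulAut.mul_apply, ← MulAut.mul_apply]
          congr 1
          have e1 := sw_uu hj
          have e2 : sw k * uu (2 * k) k j = uu (2 * k) 0 j * sw k := by
            calc sw k * uu (2 * k) k j = sw k * (uu (2 * k) k j * sw k) * sw k := by
                  rw [mul_assoc, mul_assoc, sw_sw, mul_one]
              _ = (sw k * sw k) * uu (2 * k) 0 j * sw k := by rw [← e1]; simp [mul_assoc]
              _ = _ := by rw [sw_sw, one_mul]
          rw [UU, ← mul_assoc, e1, mul_assoc (uu (2 * k) k j), e2, ← mul_assoc, (uu_comm_uu hj hj).eq]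
      intro y
      rw [mul_one, one_mul]
      have := key ((toAutS (2 * k) ⟨UU k j, UU_mem k j⟩)⁻¹ y)
      rw [MulAut.apply_inv_self] at this
      rw [← this, MulAut.inv_apply_self])
    (by simp)

theorem GG_rel (k j : ℕ) (hj : j < 2 * k) : Rel k (GG k j hj) (toOut (2 * k) ⟨UU k j, UU_mem k j⟩)⁻¹ :=
  ⟨(toAutS (2 * k) ⟨UU k j, UU_mem k j⟩)⁻¹, fun _ => extAut_inl _ _ _ _ _, rfl⟩

theorem GG_yy (k j : ℕ) (hj : j < 2 * k) {m : ℕ} (hm : m ≤ 2 * k) :
    GG k j hj (yy k m) = inl (pr k ((uu (2 * k) 0 j)⁻¹ (sc (2 * k) 0 k m))) * s0 k := by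
  have e : (toAutS (2 * k) ⟨UU k j, UU_mem k j⟩)⁻¹ (pr k (sc (2 * k) 0 k m)) =
      pr k ((uu (2 * k) 0 j)⁻¹ (sc (2 * k) 0 k m)) := by
    change pr k ((UU k j)⁻¹ (sc (2 * k) 0 k m)) = _
    congr 1
    have hc := (uu_comm_uu hj hj)
    rw [UU, hc.eq, mul_inv_rev, MulAut.mul_apply]
    congr 1
    have hS : uu (2 * k) k j ∈ Supp (2 * k) (fun l => k ≤ l) :=
      uu_Supp (k := k) (fun l h _ => h) hj
    have hS' := (Supp (2 * k) (fun l => k ≤ l)).inv_mem hS
    exact sc_fix (f := ((uu (2 * k) k j)⁻¹ : MulAut (FG (2 * k))).toMonoidHom) (f' := MonoidHom.id _)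
      (fun l hl => (hS'.1 l (by omega)).1) (fun l hl => (hS'.1 l (by omega)).2) hm
  rw [GG, yy, map_mul, extAut_inl, extAut_ss, e]
  simp

theorem yy_braid (hS : IsBraidLike k (sc (2 * k) 0 k) (fun j => (uu (2 * k) 0 j)⁻¹)) :
    IsBraidLike k (yy k) (fun j => if hj : j < 2 * k then GG k j hj else 1) where
  one j hj := by
    rw [dif_pos hj, GG_yy k j hj (by omega)]
    have := hS.one j hj
    rw [this, yy]
  two j hj := by
    rw [dif_pos hj, GG_yy k j hj (by omega)]
    have := hS.two j hj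
    rw [this, yy, yy]
    simp only [map_mul, map_inv]
    group
  fix j hj m hm h1 h2 := by
    rw [dif_pos hj, GG_yy k j hj hm]
    have := hS.fix j hj m hm h1 h2
    rw [this, yy]

/-- `H_{2k}` -/
def HN (k : ℕ) (hk : 1 ≤ k) : MulAut (OS k) :=
  extAut (swS_swS k) (MulAut.conj (nn k)⁻¹ * tN k) (nn k)⁻¹
    (by
      intro y
      rw [MulAut.mul_apply, MulAut.mul_apply, tN_sw hk, MulAut.conj_apply, MulAut.conj_apply, map_mul,
        map_mul, map_inv, inv_inv, swS_nn hk]
      group)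
    (by rw [map_inv, swS_nn hk]; group)

theorem HN_rel (k : ℕ) (hk : 1 ≤ k) :
    Rel k (HN k hk) (toOut (2 * k) ⟨tauN (2 * k) (k - 1) (2 * k - 1), tauN_R _ _ _⟩) :=
  ⟨MulAut.conj (nn k)⁻¹ * tN k, fun x => extAut_inl _ _ _ _ _, by
    rw [QuotientGroup.mk_mul]
    have : (QuotientGroup.mk (MulAut.conj (nn k)⁻¹) : OutS (2 * k)) = 1 :=
      (QuotientGroup.eq_one_iff _).2 ⟨_, rfl⟩
    rw [this, one_mul]; rfl⟩

/-- `H_c` -/
def HC (k : ℕ) : MulAut (OS k) :=
  extAut (swS_swS k) (MulAut.conj (qq k)⁻¹ * tD k) (qq k)⁻¹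
    (by
      intro y
      rw [MulAut.mul_apply, MulAut.mul_apply, tD_sw, MulAut.conj_apply, MulAut.conj_apply, map_mul,
        map_mul, map_inv, inv_inv, swS_qq]
      group)
    (by rw [map_inv, swS_qq]; group)

theorem HC_rel (k : ℕ) : Rel k (HC k) (toOut (2 * k) ⟨delta (2 * k) k, delta_R (2 * k) k⟩) :=
  ⟨MulAut.conj (qq k)⁻¹ * tD k, fun x => extAut_inl _ _ _ _ _, by
    rw [QuotientGroup.mk_mul]
    have : (QuotientGroup.mk (MulAut.conj (qq k)⁻¹) : OutS (2 * k)) = 1 :=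
      (QuotientGroup.eq_one_iff _).2 ⟨_, rfl⟩
    rw [this, one_mul]; rfl⟩

/-- `HH d = H_{2k-d}` -/
def HH (k : ℕ) (hk : 1 ≤ k) : ℕ → MulAut (OS k)
  | 0 => HN k hk
  | d + 1 => if hj : 2 * k - 1 - d < 2 * k then GG k (2 * k - 1 - d) hj * HH k hk d * (GG k (2 * k - 1 - d) hj)⁻¹
    else 1

theorem HH_rel (k : ℕ) (hk : 1 ≤ k) (d : ℕ) : Rel k (HH k hk d) (toOut (2 * k) ⟨TT k d, TT_mem k d⟩) := by
  induction d with
  | zero => exact HN_rel k hk
  | succ d ih =>
    have hj : 2 * k - 1 - d < 2 * k := by omega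
    have e : toOut (2 * k) ⟨TT k (d + 1), TT_mem k (d + 1)⟩ =
        (toOut (2 * k) ⟨UU k (2 * k - 1 - d), UU_mem k _⟩)⁻¹ * toOut (2 * k) ⟨TT k d, TT_mem k d⟩ *
          ((toOut (2 * k) ⟨UU k (2 * k - 1 - d), UU_mem k _⟩)⁻¹)⁻¹ := by
      rw [← map_inv, ← map_inv, inv_inv, ← map_mul, ← map_mul]
      rfl
    rw [e, HH, dif_pos hj]
    exact ((GG_rel k _ hj).mul ih).mul (GG_rel k _ hj).inv

theorem nn_inv (hk : 1 ≤ k) : (nn k)⁻¹ = (pr k (gb (2 * k) (2 * k - 1)))⁻¹ * qq k * pr k (gb (2 * k) (k - 1)) := by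
  rw [nn_eq hk]; group

/-- MODULE D2 with the coordinates of MODULE S as hypotheses. -/
theorem mck_relation_of (k : ℕ) (hk : 1 ≤ k)
    (hP : altP (sc (2 * k) 0 k) (2 * k + 1) = 1)
    (hQ : altQ (sc (2 * k) 0 k) (2 * k + 1) = zr (2 * k) 0 k)
    (hB : IsBraidLike k (sc (2 * k) 0 k) (fun j => (uu (2 * k) 0 j)⁻¹))
    (hgen : ∀ i, i < k →
      ga (2 * k) i ∈ Subgroup.closure {x | ∃ m ≤ 2 * k, x = sc (2 * k) 0 k m} ∧
      gb (2 * k) i ∈ Subgroup.closure {x | ∃ m ≤ 2 * k, x = sc (2 * k) 0 k m}) :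
    (((List.range (2 * k + 1)).map fun j => toOut (2 * k) ⟨Tj k j, Tj_mem k j⟩).prod *
      toOut (2 * k) ⟨delta (2 * k) k, delta_R (2 * k) k⟩) ^ 2 = 1 := by
  have h01 : (2 * k + 1) % 2 = 1 := by omega
  have yP : altP (yy k) (2 * k + 1) = s0 k := by
    rw [yy_altP, hP, if_neg (by omega)]; simp
  have yQ : altQ (yy k) (2 * k + 1) = s0 k * inl (qq k) := by
    rw [yy_altQ, hQ, if_neg (by omega), ss_inv]; simp [qq]
  have y2 : yy k (2 * k) = inl (pr k (gb (2 * k) (k - 1))) * s0 k := by rw [yy, sc_top hk]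
  -- the hypotheses of the abstract relation
  have hH1 : ∀ m, m < 2 * k → HN k hk (yy k m) = yy k m := by
    intro m hm
    have e : tN k (pr k (sc (2 * k) 0 k m)) = nn k * pr k (sc (2 * k) 0 k m) := by
      rw [tN_pr, tauN_sc hk (by omega) (by omega) hm, map_mul, nn]
    rw [HN, yy, map_mul, extAut_inl, extAut_ss, MulAut.mul_apply, e, MulAut.conj_apply, ← mul_assoc,
      ← map_mul]
    congr 2
    group
  have hH2 : HN k hk (yy k (2 * k)) = yy k (2 * k) * (altP (yy k) (2 * k + 1))⁻¹ * (yy k (2 * k))⁻¹ *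
      altQ (yy k) (2 * k + 1) * yy k (2 * k) := by
    have e : tN k (pr k (gb (2 * k) (k - 1))) = nn k * pr k (gb (2 * k) (k - 1)) * (nn k)⁻¹ := by
      rw [tN_pr, tauN_gb_left (by omega) (by omega), map_mul, map_mul, map_inv, nn]
    have e2 : swS k (pr k (gb (2 * k) (k - 1))) = pr k (gb (2 * k) (2 * k - 1)) := by
      rw [swS_pr, sw_gb1 (by omega)]; congr 2; omega
    rw [yP, yQ, y2, HN, map_mul, extAut_inl, extAut_ss, MulAut.mul_apply, e, MulAut.conj_apply]
    have e3 := ss_conj (hσ := swS_swS k) (pr k (gb (2 * k) (k - 1)))⁻¹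
    rw [map_inv (swS k), e2] at e3
    set b : Sg (2 * k) := pr k (gb (2 * k) (k - 1)) with hb
    have e4 : (inl b * s0 k)⁻¹ = s0 k * (inl b⁻¹ : OS k) := by rw [mul_inv_rev, ss_inv, map_inv]
    rw [e4, ss_inv]
    have e5 : inl b * s0 k * s0 k * (s0 k * inl b⁻¹) * (s0 k * inl (qq k)) * (inl b * s0 k) =
        inl b * (s0 k * s0 k) * (s0 k * inl b⁻¹ * s0 k) * inl (qq k) * (inl b * s0 k) := by
      simp only [mul_assoc]
    rw [e5, e3, ss_mul_self, mul_one]
    have e6 := nn_inv hk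
    have e7 : (inl b * inl (pr k (gb (2 * k) (2 * k - 1)))⁻¹ * inl (qq k) * (inl b * s0 k) : OS k) =
        inl (b * (pr k (gb (2 * k) (2 * k - 1)))⁻¹ * qq k * b) * s0 k := by
      simp only [map_mul, mul_assoc]
    rw [e7, ← mul_assoc, ← map_mul]
    congr 2
    calc (nn k)⁻¹ * (nn k * b * (nn k)⁻¹) * (nn k)⁻¹⁻¹ * (nn k)⁻¹ = b * (nn k)⁻¹ := by group
      _ = _ := by rw [e6, ← hb]; simp only [mul_assoc]
  have hH3 : ∀ j, j < 2 * k → HH k hk (2 * k - j) =
      (fun j => if hj : j < 2 * k then GG k j hj else 1) j * HH k hk (2 * k - (j + 1)) *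
      ((fun j => if hj : j < 2 * k then GG k j hj else 1) j)⁻¹ := by
    intro j hj
    have e : 2 * k - j = (2 * k - (j + 1)) + 1 := by omega
    have e1 : 2 * k - 1 - (2 * k - (j + 1)) = j := by omega
    rw [e]
    simp only [HH, e1]
    rw [dif_pos hj, dif_pos hj]
  have main := mck_abstract k (yy k) (fun j => if hj : j < 2 * k then GG k j hj else 1)
    (fun j => HH k hk (2 * k - j)) (yy_braid hB)
    (by intro m hm; rw [Nat.sub_self]; exact hH1 m hm)
    (by rw [Nat.sub_self]; exact hH2) hH3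
  set Θ := ((List.range (2 * k + 1)).map fun j => HH k hk (2 * k - j)).prod with hΘ
  -- the class of Θ
  have relΘ : ∀ n, Rel k ((List.range n).map fun j => HH k hk (2 * k - j)).prod
      ((List.range n).map fun j => toOut (2 * k) ⟨Tj k j, Tj_mem k j⟩).prod := by
    intro n
    induction n with
    | zero => exact Rel.one
    | succ n ih =>
      rw [List.range_succ, List.map_append, List.map_append, List.prod_append, List.prod_append]
      simp only [List.map_cons, List.map_nil, List.prod_cons, List.prod_nil, mul_one]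
      exact ih.mul (HH_rel k hk (2 * k - n))
  obtain ⟨η, h1, h2⟩ := (relΘ (2 * k + 1)).mul (HC_rel k)
  rw [← h2]
  -- Θ on σ and q
  have T1 : Θ (altP (yy k) (2 * k + 1)) = altQ (yy k) (2 * k + 1) := by
    have := map_altP Θ (yy k) _ _ (n := 2 * k + 1) fun i hi => main i (by omega)
    rw [this, if_neg (by omega)]; group
  have T2 : Θ (altQ (yy k) (2 * k + 1)) = altP (yy k) (2 * k + 1) := by
    have := map_altP Θ (fun i => (yy k i)⁻¹) (altQ (yy k) (2 * k + 1)) (altP (yy k) (2 * k + 1))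
      (n := 2 * k + 1) fun i hi => by rw [map_inv, main i (by omega)]; group
    rw [← altQ_eq] at this
    rw [this, if_neg (by omega)]; group
  rw [yP, yQ] at T1 T2
  -- H_c on y_m
  have hC : ∀ m, m ≤ 2 * k → HC k (yy k m) = yy k m * inl (qq k) := by
    intro m hm
    have e : tD k (pr k (sc (2 * k) 0 k m)) = qq k * pr k (sc (2 * k) 0 k m) * (qq k)⁻¹ := by
      have := sc_fix (g := 2 * k) (k := k)
        (f := (pr k).comp (delta (2 * k) k : FG (2 * k) →* FG (2 * k)))
        (f' := (MulAut.conj (qq k) : Sg (2 * k) →* Sg (2 * k)).comp (pr k))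
        (fun l hl => by
          change pr k (delta (2 * k) k (ga (2 * k) l)) = qq k * pr k (ga (2 * k) l) * (qq k)⁻¹
          rw [delta_ga1 (by omega) hl, map_mul, map_mul, map_inv, qq])
        (fun l hl => by
          change pr k (delta (2 * k) k (gb (2 * k) l)) = qq k * pr k (gb (2 * k) l) * (qq k)⁻¹
          rw [delta_gb1 (by omega) hl, map_mul, map_mul, map_inv, qq]) hm
      exact this
    have e3 := ss_conj (hσ := swS_swS k) (qq k)⁻¹
    rw [map_inv (swS k), swS_qq, inv_inv] at e3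
    rw [HC, yy, map_mul, extAut_inl, extAut_ss, MulAut.mul_apply, e, MulAut.conj_apply, mul_assoc (inl _) (s0 k),
      ← e3]
    have e4 : s0 k * (s0 k * inl (qq k)⁻¹ * s0 k) = (s0 k * s0 k) * inl (qq k)⁻¹ * s0 k := by
      simp only [mul_assoc]
    rw [e4, ss_mul_self, one_mul]
    congr 2
    group
  -- Θ H_c = conjugation by σ on the y_m
  have key : ∀ m, m ≤ 2 * k → (Θ * HC k) (yy k m) = MulAut.conj (s0 k) (yy k m) := by
    intro m hm
    rw [MulAut.mul_apply, hC m hm, map_mul, main m hm, yP, yQ, MulAut.conj_apply, ss_inv]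
    have e : Θ (inl (qq k)) = (s0 k * inl (qq k))⁻¹ * s0 k := by
      rw [map_mul, T1] at T2
      exact eq_inv_mul_of_mul_eq T2
    rw [e]
    group
  have T3 : (Θ * HC k) (s0 k) = MulAut.conj (s0 k) (s0 k) := by
    have e : s0 k ∈ ((Θ * HC k : MulAut (OS k)) : OS k →* OS k).eqLocus
        (MulAut.conj (s0 k) : OS k →* OS k) := by
      have e' : altP (yy k) (2 * k + 1) ∈ ((Θ * HC k : MulAut (OS k)) : OS k →* OS k).eqLocus
          (MulAut.conj (s0 k) : OS k →* OS k) := by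
        unfold altP
        refine Subgroup.list_prod_mem _ fun x hx => ?_
        rw [List.mem_map] at hx
        obtain ⟨i, hi, rfl⟩ := hx
        rw [List.mem_range] at hi
        split_ifs
        · exact key i (by omega)
        · exact Subgroup.inv_mem _ (key i (by omega))
      rwa [yP] at e'
    exact e
  have T4 : ∀ i, i < k → (Θ * HC k) (inl (pr k (ga _ i))) = MulAut.conj (s0 k) (inl (pr k (ga _ i))) ∧
      (Θ * HC k) (inl (pr k (gb _ i))) = MulAut.conj (s0 k) (inl (pr k (gb _ i))) := by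
    intro i hi
    have e : Subgroup.closure {x | ∃ m ≤ 2 * k, x = sc (2 * k) 0 k m} ≤
        ((((Θ * HC k : MulAut (OS k)) : OS k →* OS k).comp inl).comp (pr k)).eqLocus
          (((MulAut.conj (s0 k) : OS k →* OS k).comp inl).comp (pr k)) := by
      rw [Subgroup.closure_le]
      rintro _ ⟨m, hm, rfl⟩
      change (Θ * HC k) (inl (pr k (sc (2 * k) 0 k m))) = MulAut.conj (s0 k) (inl (pr k (sc (2 * k) 0 k m)))
      have e1 : inl (pr k (sc (2 * k) 0 k m)) = yy k m * (s0 k)⁻¹ := by rw [yy]; group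
      rw [e1, map_mul, map_mul, key m hm, map_inv, map_inv, T3]
    exact ⟨e (hgen i hi).1, e (hgen i hi).2⟩
  have T5 : (((Θ * HC k : MulAut (OS k)) : OS k →* OS k).comp inl) =
      ((MulAut.conj (s0 k) : OS k →* OS k).comp inl) := by
    refine Sg_hom_ext (fun l hl => ?_) (fun l hl => ?_)
    · change (Θ * HC k) (inl (pr k (ga _ l))) = MulAut.conj (s0 k) (inl (pr k (ga _ l)))
      rcases half_cases hl with h | ⟨l', h, rfl⟩
      · exact (T4 l h).1
      · have e : (inl (pr k (ga _ (k + l'))) : OS k) = s0 k * inl (pr k (ga _ l')) * s0 k := by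
          rw [ss_conj, swS_pr, sw_ga1 h]
        rw [e, map_mul, map_mul, map_mul, map_mul, T3, (T4 l' h).1]
    · change (Θ * HC k) (inl (pr k (gb _ l))) = MulAut.conj (s0 k) (inl (pr k (gb _ l)))
      rcases half_cases hl with h | ⟨l', h, rfl⟩
      · exact (T4 l h).2
      · have e : (inl (pr k (gb _ (k + l'))) : OS k) = s0 k * inl (pr k (gb _ l')) * s0 k := by
          rw [ss_conj, swS_pr, sw_gb1 h]
        rw [e, map_mul, map_mul, map_mul, map_mul, T3, (T4 l' h).2]
  have T6 : η = swS k := by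
    ext x
    have e1 := h1 x
    have e2 := DFunLike.congr_fun T5 x
    have e3 : (inl (η x) : OS k) = inl (swS k x) := by
      rw [← e1, ← ss_conj x]
      calc _ = MulAut.conj (s0 k) (inl x) := e2
        _ = _ := by rw [MulAut.conj_apply, ss_inv]
    exact SemidirectProduct.inl_injective e3
  rw [T6, sq, ← QuotientGroup.mk_mul, swS_swS]
  rfl

end

end Pool.Agent.helper78.Hz
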