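import Mathlib
import Pool.Agent.helper78.Hz.Mck4
import Pool.Agent.helper45.Hz.S

/-! # MODULE D2 of MP_1b0330_gt: the Matsumoto-Cadavid-Korkmaz relation -/

namespace Pool.Agent.helper78.Hz
open Pool.Agent.helper35.Hz

/-- the Matsumoto-Cadavid-Korkmaz relation in `Out(π_1 Σ_{2k})` -/
theorem mck_relation (k : ℕ) (hk : 1 ≤ k) :
    (((List.range (2 * k + 1)).map fun j => toOut (2 * k) ⟨Tj k j, Tj_mem k j⟩).prod *
      toOut (2 * k) ⟨delta (2 * k) k, delta_R (2 * k) k⟩) ^ 2 = 1 := by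
  have h : 0 + k ≤ 2 * k := by omega
  refine mck_relation_of k hk (Pool.Agent.helper45.Hz.sc_altP h) ?_
    (Pool.Agent.helper45.Hz.sc_braidLike h) fun i hi => ?_
  · have := Pool.Agent.helper45.Hz.sc_altQ h
    rwa [Nat.zero_add] at this
  · have := Pool.Agent.helper45.Hz.sc_gen h hi
    rwa [Nat.zero_add] at this

end Pool.Agent.helper78.Hz
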